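import Pool.Agent.H18.VZ.Targets

/-!
# vz_modules, row HFC: lifting of a factorization to power series
-/

namespace Pool.Agent.H68.VZ

open MvPolynomial
open Pool.Agent.H12.ZD (pmap)
open Pool.Agent.H18.HIT Pool.Agent.H18.HX Pool.Agent.H18.VZ

namespace HFC

variable {κ : Type} [Field κ]

/-- exchange of the variable and the power series variable -/
noncomputable def Th : Polynomial (PowerSeries κ) →+* PowerSeries (Polynomial κ) :=
  Polynomial.eval₂RingHom (PowerSeries.map (Polynomial.C (R := κ)))
    (PowerSeries.C (R := Polynomial κ) Polynomial.X)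

lemma th_coeff (P : Polynomial (PowerSeries κ)) (m i : ℕ) :
    (PowerSeries.coeff m (Th P)).coeff i = PowerSeries.coeff m (P.coeff i) := by
  induction P using Polynomial.induction_on' with
  | add p q hp hq =>
    rw [map_add, map_add, Polynomial.coeff_add, hp, hq, Polynomial.coeff_add, map_add]
  | monomial n f =>
    have h1 : Th (Polynomial.monomial n f) =
        PowerSeries.map (Polynomial.C (R := κ)) f * PowerSeries.C (Polynomial.X ^ n) := by
      unfold Th
      rw [Polynomial.coe_eval₂RingHom, Polynomial.eval₂_monomial, map_pow]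
    rw [h1, PowerSeries.coeff_mul_C, PowerSeries.coeff_map, Polynomial.coeff_C_mul,
      Polynomial.coeff_X_pow, Polynomial.coeff_monomial]
    by_cases h : i = n
    · rw [if_pos h, if_pos h.symm, mul_one]
    · rw [if_neg h, if_neg (Ne.symm h), mul_zero, map_zero]

lemma th_inj {P P' : Polynomial (PowerSeries κ)} (h : Th P = Th P') : P = P' := by
  ext i m
  rw [← th_coeff, ← th_coeff, h]

/-- one step of the lifting -/
lemma step (A B R : Polynomial κ) (hA : A.Monic) (hB : B.Monic) (hAB : IsCoprime A B)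
    (hR : R.degree < ((A.natDegree + B.natDegree : ℕ) : WithBot ℕ)) :
    ∃ u w : Polynomial κ, u * B + A * w = R ∧ u.degree < (A.natDegree : WithBot ℕ) ∧
      w.degree < (B.natDegree : WithBot ℕ) := by
  obtain ⟨x, y, hxy⟩ := hAB
  have hdA : A.degree = (A.natDegree : WithBot ℕ) := Polynomial.degree_eq_natDegree hA.ne_zero
  have hdB : B.degree = (B.natDegree : WithBot ℕ) := Polynomial.degree_eq_natDegree hB.ne_zero
  obtain ⟨u, hu⟩ : ∃ u, u = (R * y) %ₘ A := ⟨_, rfl⟩
  obtain ⟨q, hq⟩ : ∃ q, q = (R * y) /ₘ A := ⟨_, rfl⟩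
  have hdiv : u + A * q = R * y := by
    rw [hu, hq]; exact Polynomial.modByMonic_add_div _ _
  have hud : u.degree < (A.natDegree : WithBot ℕ) := by
    rw [← hdA, hu]; exact Polynomial.degree_modByMonic_lt _ hA
  have heq : u * B + A * (R * x + q * B) = R := by
    calc u * B + A * (R * x + q * B) = R * (x * A) + (u + A * q) * B := by ring
      _ = R * (x * A + y * B) := by rw [hdiv]; ring
      _ = R := by rw [hxy, mul_one]
  refine ⟨u, R * x + q * B, heq, hud, ?_⟩
  obtain ⟨w, hw⟩ : ∃ w, w = R * x + q * B := ⟨_, rfl⟩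
  rw [← hw] at heq ⊢
  have h1 : A * w = R - u * B := by rw [← heq]; ring
  have h2 : (u * B).degree < ((A.natDegree + B.natDegree : ℕ) : WithBot ℕ) := by
    by_cases hu0 : u = 0
    · rw [hu0, zero_mul, Polynomial.degree_zero]; exact WithBot.bot_lt_coe _
    · rw [Polynomial.degree_mul, hdB]
      rw [Polynomial.degree_eq_natDegree hu0] at hud ⊢
      have h3 : u.natDegree < A.natDegree := by exact_mod_cast hud
      have h4 : u.natDegree + B.natDegree < A.natDegree + B.natDegree := by omega
      exact_mod_cast h4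
  have h5 : (A * w).degree < ((A.natDegree + B.natDegree : ℕ) : WithBot ℕ) := by
    rw [h1]
    exact lt_of_le_of_lt (Polynomial.degree_sub_le _ _) (max_lt hR h2)
  by_cases hw0 : w = 0
  · rw [hw0, Polynomial.degree_zero]; exact WithBot.bot_lt_coe _
  · rw [Polynomial.degree_mul, hdA, Polynomial.degree_eq_natDegree hw0] at h5
    rw [Polynomial.degree_eq_natDegree hw0]
    have h6 : A.natDegree + w.natDegree < A.natDegree + B.natDegree := by exact_mod_cast h5
    have h7 : w.natDegree < B.natDegree := by omega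
    exact_mod_cast h7

/-- the invariant of the successive approximation -/
structure Inv (A B : Polynomial κ) (Qs : PowerSeries (Polynomial κ)) (m : ℕ)
    (p : PowerSeries (Polynomial κ) × PowerSeries (Polynomial κ)) : Prop where
  eq : ∀ k ≤ m, PowerSeries.coeff k (p.1 * p.2) = PowerSeries.coeff k Qs
  zl : PowerSeries.coeff 0 p.1 = A
  zr : PowerSeries.coeff 0 p.2 = B
  dl : ∀ k, 1 ≤ k → (PowerSeries.coeff k p.1).degree < (A.natDegree : WithBot ℕ)
  dr : ∀ k, 1 ≤ k → (PowerSeries.coeff k p.2).degree < (B.natDegree : WithBot ℕ)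

lemma deg_mul_lt {p q : Polynomial κ} {a b : ℕ} (hp : p.degree < (a : WithBot ℕ))
    (hq : q.degree ≤ (b : WithBot ℕ)) : (p * q).degree < ((a + b : ℕ) : WithBot ℕ) := by
  by_cases hp0 : p = 0
  · rw [hp0, zero_mul, Polynomial.degree_zero]; exact WithBot.bot_lt_coe _
  by_cases hq0 : q = 0
  · rw [hq0, mul_zero, Polynomial.degree_zero]; exact WithBot.bot_lt_coe _
  rw [Polynomial.degree_mul, Polynomial.degree_eq_natDegree hp0,
    Polynomial.degree_eq_natDegree hq0]
  rw [Polynomial.degree_eq_natDegree hp0] at hp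
  rw [Polynomial.degree_eq_natDegree hq0] at hq
  have h1 : p.natDegree < a := by exact_mod_cast hp
  have h2 : q.natDegree ≤ b := by exact_mod_cast hq
  have h3 : p.natDegree + q.natDegree < a + b := by omega
  exact_mod_cast h3

lemma deg_add_lt {p q : Polynomial κ} {a : ℕ} (hp : p.degree < (a : WithBot ℕ))
    (hq : q.degree < (a : WithBot ℕ)) : (p + q).degree < (a : WithBot ℕ) :=
  lt_of_le_of_lt (Polynomial.degree_add_le _ _) (max_lt hp hq)

lemma next (A B : Polynomial κ) (Qs : PowerSeries (Polynomial κ)) (hA : A.Monic) (hB : B.Monic)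
    (hAB : IsCoprime A B)
    (hQ : ∀ k, 1 ≤ k →
      (PowerSeries.coeff k Qs).degree < ((A.natDegree + B.natDegree : ℕ) : WithBot ℕ))
    (m : ℕ) (p : PowerSeries (Polynomial κ) × PowerSeries (Polynomial κ))
    (hp : Inv A B Qs m p) :
    ∃ p' : PowerSeries (Polynomial κ) × PowerSeries (Polynomial κ), Inv A B Qs (m + 1) p' ∧
      ∀ k ≤ m, PowerSeries.coeff k p'.1 = PowerSeries.coeff k p.1 ∧
        PowerSeries.coeff k p'.2 = PowerSeries.coeff k p.2 := by
  obtain ⟨U, W⟩ := p
  have hzl : PowerSeries.coeff 0 U = A := hp.zl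
  have hzr : PowerSeries.coeff 0 W = B := hp.zr
  have hdl : ∀ k, 1 ≤ k → (PowerSeries.coeff k U).degree < (A.natDegree : WithBot ℕ) := hp.dl
  have hdr : ∀ k, 1 ≤ k → (PowerSeries.coeff k W).degree < (B.natDegree : WithBot ℕ) := hp.dr
  have heq : ∀ k ≤ m, PowerSeries.coeff k (U * W) = PowerSeries.coeff k Qs := hp.eq
  have hlU : ∀ k, (PowerSeries.coeff k U).degree ≤ (A.natDegree : WithBot ℕ) := by
    intro k
    rcases Nat.eq_zero_or_pos k with rfl | hk
    · rw [hzl]; exact Polynomial.degree_le_natDegree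
    · exact (hdl k hk).le
  have hprod : (PowerSeries.coeff (m + 1) (U * W)).degree <
      ((A.natDegree + B.natDegree : ℕ) : WithBot ℕ) := by
    rw [PowerSeries.coeff_mul]
    refine lt_of_le_of_lt (Polynomial.degree_sum_le _ _) ?_
    rw [Finset.sup_lt_iff (WithBot.bot_lt_coe _)]
    rintro ⟨i, j⟩ hij
    rw [Finset.HasAntidiagonal.mem_antidiagonal] at hij
    rcases Nat.eq_zero_or_pos j with hj | hj
    · have hi : 1 ≤ i := by
        have : i + j = m + 1 := hij
        omega
      show (PowerSeries.coeff i U * PowerSeries.coeff j W).degree < _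
      rw [hj, hzr]
      exact deg_mul_lt (hdl i hi) Polynomial.degree_le_natDegree
    · show (PowerSeries.coeff i U * PowerSeries.coeff j W).degree < _
      rw [mul_comm, add_comm A.natDegree]
      exact deg_mul_lt (hdr j hj) (hlU i)
  obtain ⟨u, w, huw, hu, hw⟩ := step A B
    (PowerSeries.coeff (m + 1) Qs - PowerSeries.coeff (m + 1) (U * W)) hA hB hAB
    (lt_of_le_of_lt (Polynomial.degree_sub_le _ _) (max_lt (hQ _ (by omega)) hprod))
  have hcl : ∀ (Y : PowerSeries (Polynomial κ)) (v : Polynomial κ) (k : ℕ),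
      PowerSeries.coeff k (Y + PowerSeries.X ^ (m + 1) * PowerSeries.C v) =
        PowerSeries.coeff k Y + if k = m + 1 then v else 0 := by
    intro Y v k
    rw [map_add, PowerSeries.coeff_X_pow_mul']
    congr 1
    by_cases h : m + 1 ≤ k
    · rw [if_pos h, PowerSeries.coeff_C]
      by_cases h' : k = m + 1
      · rw [if_pos h', if_pos (by omega)]
      · rw [if_neg h', if_neg (by omega)]
    · rw [if_neg h, if_neg (by omega)]
  have hmul : (U + PowerSeries.X ^ (m + 1) * PowerSeries.C u) *
      (W + PowerSeries.X ^ (m + 1) * PowerSeries.C w) =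
      U * W + PowerSeries.X ^ (m + 1) * (PowerSeries.C u * W + U * PowerSeries.C w +
        PowerSeries.X * (PowerSeries.X ^ m * (PowerSeries.C u * PowerSeries.C w))) := by
    ring
  refine ⟨(U + PowerSeries.X ^ (m + 1) * PowerSeries.C u,
    W + PowerSeries.X ^ (m + 1) * PowerSeries.C w), ⟨?_, ?_, ?_, ?_, ?_⟩, ?_⟩
  · intro k hk
    show PowerSeries.coeff k ((U + PowerSeries.X ^ (m + 1) * PowerSeries.C u) *
      (W + PowerSeries.X ^ (m + 1) * PowerSeries.C w)) = _
    rw [hmul, map_add, PowerSeries.coeff_X_pow_mul']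
    by_cases h : m + 1 ≤ k
    · have hk' : k = m + 1 := le_antisymm hk h
      rw [if_pos h, hk', Nat.sub_self, map_add, map_add, PowerSeries.coeff_zero_X_mul, add_zero,
        PowerSeries.coeff_C_mul, PowerSeries.coeff_mul_C, hzl, hzr, huw]
      ring
    · rw [if_neg h, add_zero]
      exact heq k (by omega)
  · show PowerSeries.coeff 0 (U + PowerSeries.X ^ (m + 1) * PowerSeries.C u) = A
    rw [hcl, if_neg (by omega), add_zero, hzl]
  · show PowerSeries.coeff 0 (W + PowerSeries.X ^ (m + 1) * PowerSeries.C w) = B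
    rw [hcl, if_neg (by omega), add_zero, hzr]
  · intro k hk
    show (PowerSeries.coeff k (U + PowerSeries.X ^ (m + 1) * PowerSeries.C u)).degree < _
    rw [hcl]
    refine deg_add_lt (hdl k hk) ?_
    by_cases h : k = m + 1
    · rw [if_pos h]; exact hu
    · rw [if_neg h, Polynomial.degree_zero]; exact WithBot.bot_lt_coe _
  · intro k hk
    show (PowerSeries.coeff k (W + PowerSeries.X ^ (m + 1) * PowerSeries.C w)).degree < _
    rw [hcl]
    refine deg_add_lt (hdr k hk) ?_
    by_cases h : k = m + 1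
    · rw [if_pos h]; exact hw
    · rw [if_neg h, Polynomial.degree_zero]; exact WithBot.bot_lt_coe _
  · intro k hk
    refine ⟨?_, ?_⟩
    · show PowerSeries.coeff k (U + PowerSeries.X ^ (m + 1) * PowerSeries.C u) = _
      rw [hcl, if_neg (by omega), add_zero]
    · show PowerSeries.coeff k (W + PowerSeries.X ^ (m + 1) * PowerSeries.C w) = _
      rw [hcl, if_neg (by omega), add_zero]

/-- the limit of the successive approximation -/
lemma limit (A B : Polynomial κ) (Qs : PowerSeries (Polynomial κ)) (hA : A.Monic) (hB : B.Monic)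
    (hAB : IsCoprime A B) (h0 : PowerSeries.coeff 0 Qs = A * B)
    (hQ : ∀ k, 1 ≤ k →
      (PowerSeries.coeff k Qs).degree < ((A.natDegree + B.natDegree : ℕ) : WithBot ℕ)) :
    ∃ U W : PowerSeries (Polynomial κ), U * W = Qs ∧ PowerSeries.coeff 0 U = A ∧
      PowerSeries.coeff 0 W = B ∧
      (∀ k, 1 ≤ k → (PowerSeries.coeff k U).degree < (A.natDegree : WithBot ℕ)) ∧
      ∀ k, 1 ≤ k → (PowerSeries.coeff k W).degree < (B.natDegree : WithBot ℕ) := by
  have hstart : Inv A B Qs 0 (PowerSeries.C A, PowerSeries.C B) := by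
    refine ⟨?_, ?_, ?_, ?_, ?_⟩
    · intro k hk
      have hk0 : k = 0 := by omega
      rw [hk0, h0]
      show PowerSeries.coeff 0 (PowerSeries.C A * PowerSeries.C B) = A * B
      rw [← map_mul, PowerSeries.coeff_zero_C]
    · exact PowerSeries.coeff_zero_C A
    · exact PowerSeries.coeff_zero_C B
    · intro k hk
      show (PowerSeries.coeff k (PowerSeries.C A)).degree < _
      rw [PowerSeries.coeff_C, if_neg (by omega), Polynomial.degree_zero]
      exact WithBot.bot_lt_coe _
    · intro k hk
      show (PowerSeries.coeff k (PowerSeries.C B)).degree < _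
      rw [PowerSeries.coeff_C, if_neg (by omega), Polynomial.degree_zero]
      exact WithBot.bot_lt_coe _
  choose nx hnx1 hnx2 using next A B Qs hA hB hAB hQ
  let st : (m : ℕ) → {p : PowerSeries (Polynomial κ) × PowerSeries (Polynomial κ) //
      Inv A B Qs m p} := fun m => Nat.rec ⟨_, hstart⟩ (fun m p => ⟨nx m p.1 p.2, hnx1 m p.1 p.2⟩) m
  have hst : ∀ m k, k ≤ m → PowerSeries.coeff k (st (m + 1)).1.1 = PowerSeries.coeff k (st m).1.1 ∧
      PowerSeries.coeff k (st (m + 1)).1.2 = PowerSeries.coeff k (st m).1.2 :=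
    fun m k hk => hnx2 m (st m).1 (st m).2 k hk
  have hst2 : ∀ k d, PowerSeries.coeff k (st (k + d)).1.1 = PowerSeries.coeff k (st k).1.1 ∧
      PowerSeries.coeff k (st (k + d)).1.2 = PowerSeries.coeff k (st k).1.2 := by
    intro k d
    induction d with
    | zero => exact ⟨rfl, rfl⟩
    | succ d ih =>
      have h := hst (k + d) k (by omega)
      exact ⟨h.1.trans ih.1, h.2.trans ih.2⟩
  refine ⟨PowerSeries.mk fun m => PowerSeries.coeff m (st m).1.1,
    PowerSeries.mk fun m => PowerSeries.coeff m (st m).1.2, ?_, ?_, ?_, ?_, ?_⟩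
  · ext1 m
    rw [← (st m).2.eq m le_rfl, PowerSeries.coeff_mul, PowerSeries.coeff_mul]
    refine Finset.sum_congr rfl ?_
    rintro ⟨i, j⟩ hij
    rw [Finset.HasAntidiagonal.mem_antidiagonal] at hij
    have hij' : i + j = m := hij
    show PowerSeries.coeff i (PowerSeries.mk fun m => PowerSeries.coeff m (st m).1.1) *
      PowerSeries.coeff j (PowerSeries.mk fun m => PowerSeries.coeff m (st m).1.2) =
      PowerSeries.coeff i (st m).1.1 * PowerSeries.coeff j (st m).1.2
    rw [PowerSeries.coeff_mk, PowerSeries.coeff_mk, ← (hst2 i j).1, ← (hst2 j i).2, hij',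
      add_comm j i, hij']
  · rw [PowerSeries.coeff_mk]; exact (st 0).2.zl
  · rw [PowerSeries.coeff_mk]; exact (st 0).2.zr
  · intro k hk
    rw [PowerSeries.coeff_mk]; exact (st k).2.dl k hk
  · intro k hk
    rw [PowerSeries.coeff_mk]; exact (st k).2.dr k hk

/-- back to polynomials over power series -/
lemma back (A : Polynomial κ) (hA : A.Monic) (U : PowerSeries (Polynomial κ))
    (h0 : PowerSeries.coeff 0 U = A)
    (hd : ∀ k, 1 ≤ k → (PowerSeries.coeff k U).degree < (A.natDegree : WithBot ℕ)) :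
    ∃ A' : Polynomial (PowerSeries κ), A'.Monic ∧ A'.map PowerSeries.constantCoeff = A ∧
      Th A' = U := by
  obtain ⟨A', hA'⟩ : ∃ A' : Polynomial (PowerSeries κ), A' =
      ∑ i ∈ Finset.range (A.natDegree + 1),
        Polynomial.monomial i (PowerSeries.mk fun m => (PowerSeries.coeff m U).coeff i) :=
    ⟨_, rfl⟩
  have hle : ∀ m i, A.natDegree < i → (PowerSeries.coeff m U).coeff i = 0 := by
    intro m i hi
    rcases Nat.eq_zero_or_pos m with rfl | hm
    · rw [h0]; exact Polynomial.coeff_eq_zero_of_natDegree_lt hi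
    · apply Polynomial.coeff_eq_zero_of_degree_lt
      refine lt_trans (hd m hm) ?_
      exact_mod_cast hi
  have hco : ∀ i, A'.coeff i = PowerSeries.mk fun m => (PowerSeries.coeff m U).coeff i := by
    intro i
    rw [hA', Polynomial.finsetSum_coeff]
    by_cases hi : i ∈ Finset.range (A.natDegree + 1)
    · rw [Finset.sum_eq_single i]
      · rw [Polynomial.coeff_monomial, if_pos rfl]
      · intro j _ hj
        rw [Polynomial.coeff_monomial, if_neg hj]
      · intro h; exact absurd hi h
    · rw [Finset.sum_eq_zero]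
      · ext m
        rw [PowerSeries.coeff_mk, map_zero, hle]
        rw [Finset.mem_range] at hi
        omega
      · intro j hj
        rw [Polynomial.coeff_monomial, if_neg]
        rintro rfl
        exact hi hj
  refine ⟨A', ?_, ?_, ?_⟩
  · apply Polynomial.monic_of_natDegree_le_of_coeff_eq_one A.natDegree
    · rw [Polynomial.natDegree_le_iff_coeff_eq_zero]
      intro i hi
      rw [hco]
      ext m
      rw [PowerSeries.coeff_mk, map_zero, hle m i hi]
    · rw [hco]
      ext m
      rw [PowerSeries.coeff_mk, PowerSeries.coeff_one]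
      rcases Nat.eq_zero_or_pos m with rfl | hm
      · rw [h0, if_pos rfl]; exact hA
      · rw [if_neg (by omega)]
        exact Polynomial.coeff_eq_zero_of_degree_lt (hd m hm)
  · ext i
    rw [Polynomial.coeff_map, hco, ← PowerSeries.coeff_zero_eq_constantCoeff_apply,
      PowerSeries.coeff_mk, h0]
  · ext m i
    rw [th_coeff, hco, PowerSeries.coeff_mk]

end HFC

open HFC in
theorem pf_HFC : T_HFC := by
  intro κ _ Q A B hQm hA hB hAB hQ
  have hnd : Q.natDegree = A.natDegree + B.natDegree := by
    rw [← hQm.natDegree_map (PowerSeries.constantCoeff (R := κ)), hQ,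
      hA.natDegree_mul hB]
  have h0 : PowerSeries.coeff 0 (Th Q) = A * B := by
    rw [← hQ]
    ext i
    rw [th_coeff, Polynomial.coeff_map, PowerSeries.coeff_zero_eq_constantCoeff_apply]
  have hd : ∀ k, 1 ≤ k → (PowerSeries.coeff k (Th Q)).degree <
      ((A.natDegree + B.natDegree : ℕ) : WithBot ℕ) := by
    intro k hk
    rw [Polynomial.degree_lt_iff_coeff_zero]
    intro i hi
    rw [th_coeff]
    rcases Nat.lt_or_eq_of_le hi with h | h
    · rw [Polynomial.coeff_eq_zero_of_natDegree_lt (by rw [hnd]; exact h), map_zero]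
    · rw [← h, ← hnd, hQm.coeff_natDegree, PowerSeries.coeff_one, if_neg (by omega)]
  obtain ⟨U, W, hUW, hU0, hW0, hUd, hWd⟩ := limit A B (Th Q) hA hB hAB h0 hd
  obtain ⟨A', hA'1, hA'2, hA'3⟩ := back A hA U hU0 hUd
  obtain ⟨B', hB'1, hB'2, hB'3⟩ := back B hB W hW0 hWd
  refine ⟨A', B', hA'1, hB'1, hA'2, hB'2, th_inj ?_⟩
  rw [map_mul, hA'3, hB'3, hUW]

end Pool.Agent.H68.VZ
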